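import Pool.Agent.Helper62.PM.St5

/-!
# Project PM, module PF: from smooth bodies to all bodies
-/

set_option autoImplicit false

open MeasureTheory Metric Set Filter Topology
open scoped RealInnerProductSpace ContDiff

namespace Pool.Agent.Helper27.PM

open Pool.Agent.Helper62.PM
open Pool.Agent.Helper62.Mink

private theorem tend_PF {n : ℕ} {M : ConvexBody (E n)} {Ms : ℕ → ConvexBody (E n)}
    (h : Tendsto Ms atTop (𝓝 M)) (u : E n) :
    Tendsto (fun j => supp (Ms j) u) atTop (𝓝 (supp M u)) := by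
  rw [tendsto_iff_dist_tendsto_zero]
  have h1 : Tendsto (fun j => dist (Ms j) M * ‖u‖) atTop (𝓝 0) := by
    have h2 := (tendsto_iff_dist_tendsto_zero.1 h).mul_const ‖u‖
    rwa [zero_mul] at h2
  refine squeeze_zero (fun _ => dist_nonneg) (fun j => ?_) h1
  rw [Real.dist_eq]
  exact abs_supp_sub_le (Ms j) M u

/-- MODULE PF. -/
theorem hPF : StPF := by
  intro n e T T' a b hn he hT hT' hyp K x
  by_cases hx : x = 0
  · subst hx
    rw [neg_zero, (supp_sublinear (T K)).map_zero, (supp_sublinear K).map_zero,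
      (supp_sublinear (T' K)).map_zero]
    ring
  have hK : ∀ j : ℕ, ∃ L : ConvexBody (E n), ContDiffOn ℝ ∞ (supp L) {0}ᶜ ∧
      ∀ u, |supp L u - supp K u| ≤ (1 / ((j : ℝ) + 1)) * ‖u‖ := by
    intro j
    obtain ⟨g, hg, hC, hc⟩ := exists_smooth (supp_sublinear K)
      (by positivity : (0 : ℝ) < 1 / ((j : ℝ) + 1))
    obtain ⟨L, hL⟩ := exists_body hg
    exact ⟨L, by rw [hL]; exact hC, fun u => by rw [hL]; exact hc u⟩
  choose L hL1 hL2 using hK
  have hLK : Tendsto L atTop (𝓝 K) := by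
    rw [tendsto_iff_dist_tendsto_zero]
    exact squeeze_zero (fun _ => dist_nonneg)
      (fun j => dist_le_of_supp (by positivity) (hL2 j)) tendsto_one_div_add_atTop_nhds_zero_nat
  have hx0 : 0 < ‖x‖ := norm_pos_iff.2 hx
  obtain ⟨u, hu⟩ : ∃ u : E n, u = ‖x‖⁻¹ • x := ⟨_, rfl⟩
  have hu1 : ‖u‖ = 1 := by
    rw [hu, norm_smul, norm_inv, norm_norm, inv_mul_cancel₀ hx0.ne']
  have hxu : x = ‖x‖ • u := by
    rw [hu, smul_smul, mul_inv_cancel₀ hx0.ne', one_smul]
  obtain ⟨θ, hθ, hθe⟩ := exists_rot hn he hu1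
  have h1 : ∀ j, supp (T (L j)) u = a * supp (L j) u + b * supp (L j) (-u)
      + supp (T' (L j)) u := by
    intro j
    have h2 := hyp (L j) (hL1 j) θ hθ
    rwa [hθe] at h2
  have hTl : Tendsto (fun j => T (L j)) atTop (𝓝 (T K)) :=
    (hT.continuous.tendsto K).comp hLK
  have hTl' : Tendsto (fun j => T' (L j)) atTop (𝓝 (T' K)) :=
    (hT'.continuous.tendsto K).comp hLK
  have h3 : supp (T K) u = a * supp K u + b * supp K (-u) + supp (T' K) u := by
    refine tendsto_nhds_unique (tend_PF hTl u) ?_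
    have h4 := (((tend_PF hLK u).const_mul a).add ((tend_PF hLK (-u)).const_mul b)).add
      (tend_PF hTl' u)
    exact h4.congr fun j => (h1 j).symm
  have h5 : ∀ M : ConvexBody (E n), supp M x = ‖x‖ * supp M u := by
    intro M
    conv_lhs => rw [hxu]
    exact (supp_sublinear M).pos_hom ‖x‖ hx0.le u
  have h6 : supp K (-x) = ‖x‖ * supp K (-u) := by
    conv_lhs => rw [hxu, ← smul_neg]
    exact (supp_sublinear K).pos_hom ‖x‖ hx0.le (-u)
  rw [h5 (T K), h5 K, h5 (T' K), h6, h3]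
  ring

end Pool.Agent.Helper27.PM
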