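import Pool.Agent.Helper62.PM.St2

/-!
# Project PM, module XD: the operator of a zonal distribution
-/

set_option autoImplicit false

open MeasureTheory Metric Set Filter Topology Polynomial
open scoped RealInnerProductSpace ContDiff

namespace Pool.Agent.Helper27.PM

open Pool.Agent.Helper62.PM
open Pool.Agent.Helper62.Mink

variable {n : ℕ}

private lemma isRot_trans {a b : E n ≃ₗᵢ[ℝ] E n} (ha : IsRot a) (hb : IsRot b) : IsRot (a.trans b) := by
  unfold IsRot at *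
  have e1 : ((a.trans b).toLinearEquiv.toLinearMap : E n →ₗ[ℝ] E n)
      = (b.toLinearEquiv.toLinearMap : E n →ₗ[ℝ] E n) ∘ₗ
        (a.toLinearEquiv.toLinearMap : E n →ₗ[ℝ] E n) := rfl
  rw [e1, LinearMap.det_comp, ha, hb, one_mul]

private lemma isRot_symm {a : E n ≃ₗᵢ[ℝ] E n} (ha : IsRot a) : IsRot a.symm := by
  unfold IsRot at *
  have e1 : (a.symm.toLinearEquiv.toLinearMap : E n →ₗ[ℝ] E n) ∘ₗ
      (a.toLinearEquiv.toLinearMap : E n →ₗ[ℝ] E n) = LinearMap.id := by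
    ext x
    simp
  have h := congrArg LinearMap.det e1
  rw [LinearMap.det_comp, ha, mul_one, LinearMap.det_id] at h
  exact h

/-- the words of bounded length have a common bound on the sphere -/
private lemma exists_Bd (hD : StD) (hXA : StXA) (N : ℕ) (φ : E n → ℝ) (hφ : S1 φ) : ∃ B : ℝ, Bd N φ B := by
  have h1 : ∀ w : List (Fin n × Fin n), ∃ b : ℝ, ∀ x : E n, ‖x‖ = 1 → |Xw w φ x| ≤ b := by
    intro w
    have hc : Continuous (Xw w φ) := ((hD n).2.2.2.2 _ ((hXA n).2.1 w φ hφ)).1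
    obtain ⟨b, hb⟩ := (isCompact_sphere (0 : E n) 1).exists_bound_of_continuousOn hc.continuousOn
    refine ⟨b, fun x hx => ?_⟩
    have := hb x (by simpa using hx)
    rwa [Real.norm_eq_abs] at this
  choose b hb using h1
  obtain ⟨B, hB⟩ := ((List.finite_length_le (Fin n × Fin n) N).image b).bddAbove
  refine ⟨B, fun w hw x hx => (hb w x hx).trans (hB ⟨w, hw, rfl⟩)⟩

/-- two unit vectors in polar form -/
private lemma polar (a x : E n) (ha : ‖a‖ = 1) (hx : ‖x‖ = 1) (hxa : x ≠ a) (hxa' : x ≠ -a) :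
    ∃ (b : E n) (t : ℝ), ON (a, b) ∧ x = Real.cos t • a + Real.sin t • b ∧ |t| ≤ Real.pi / 2 * ‖x - a‖ := by
  set c : ℝ := inner ℝ a x with hc
  have haa : (inner ℝ a a : ℝ) = 1 := by rw [real_inner_self_eq_norm_sq, ha]; norm_num
  have hxx : (inner ℝ x x : ℝ) = 1 := by rw [real_inner_self_eq_norm_sq, hx]; norm_num
  have hxa2 : (inner ℝ x a : ℝ) = c := by rw [real_inner_comm]
  have hc1 : |c| ≤ 1 := by
    have := abs_real_inner_le_norm a x
    rw [ha, hx, one_mul] at this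
    exact this
  obtain ⟨hcl, hcu⟩ := abs_le.1 hc1
  set w : E n := x - c • a with hw
  have hww : ‖w‖ ^ 2 = 1 - c ^ 2 := by
    rw [← real_inner_self_eq_norm_sq, hw]
    simp only [inner_sub_left, inner_sub_right, inner_smul_left, inner_smul_right, haa, hxx, hxa2,
      conj_trivial]
    rw [← hc]
    ring
  have hw0 : w ≠ 0 := by
    intro h0
    have h1 : x = c • a := by
      rw [hw] at h0
      exact sub_eq_zero.1 h0
    have h2 : c ^ 2 = 1 := by
      rw [h0, norm_zero] at hww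
      nlinarith
    have h2' : (c - 1) * (c + 1) = 0 := by
      have h21 : (c - 1) * (c + 1) = c ^ 2 - 1 := by ring
      rw [h21, h2, sub_self]
    rcases (mul_eq_zero.1 h2').imp (fun h => sub_eq_zero.1 h) (fun h => eq_neg_of_add_eq_zero_left h) with h3 | h3
    · exact hxa (by rw [h1, h3, one_smul])
    · exact hxa' (by rw [h1, h3, neg_smul, one_smul])
  have hwn : ‖w‖ ≠ 0 := norm_ne_zero_iff.2 hw0
  have haw : (inner ℝ a w : ℝ) = 0 := by
    rw [hw, inner_sub_right, inner_smul_right, haa, ← hc]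
    ring
  refine ⟨‖w‖⁻¹ • w, Real.arccos c, ⟨ha, ?_, ?_⟩, ?_, ?_⟩
  · rw [norm_smul, norm_inv, norm_norm]
    exact inv_mul_cancel₀ hwn
  · change (inner ℝ a (‖w‖⁻¹ • w) : ℝ) = 0
    rw [inner_smul_right, haw, mul_zero]
  · rw [Real.cos_arccos hcl hcu, Real.sin_arccos]
    have h1 : √(1 - c ^ 2) = ‖w‖ := by
      rw [← hww]
      exact Real.sqrt_sq (norm_nonneg _)
    rw [h1, smul_smul, mul_inv_cancel₀ hwn, one_smul, hw]
    abel
  · have ht0 : 0 ≤ Real.arccos c := Real.arccos_nonneg c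
    have htp : Real.arccos c ≤ Real.pi := Real.arccos_le_pi c
    have h1 := Real.cos_le_one_sub_mul_cos_sq (x := Real.arccos c) (by rw [abs_of_nonneg ht0]; exact htp)
    rw [Real.cos_arccos hcl hcu] at h1
    have h2 : ‖x - a‖ ^ 2 = 2 - 2 * c := by
      rw [← real_inner_self_eq_norm_sq]
      simp only [inner_sub_left, inner_sub_right, haa, hxx, hxa2]
      rw [← hc]
      ring
    have hpi := Real.pi_pos
    rw [abs_of_nonneg ht0]
    refine abs_le_of_sq_le_sq' ?_ (by positivity) |>.2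
    have h3 : 2 / Real.pi ^ 2 * Real.arccos c ^ 2 ≤ 1 - c := by linarith
    have h4 : Real.arccos c ^ 2 ≤ Real.pi ^ 2 / 2 * (1 - c) := by
      have : Real.arccos c ^ 2 = Real.pi ^ 2 / 2 * (2 / Real.pi ^ 2 * Real.arccos c ^ 2) := by
        field_simp
      rw [this]
      exact mul_le_mul_of_nonneg_left h3 (by positivity)
    calc Real.arccos c ^ 2 ≤ Real.pi ^ 2 / 2 * (1 - c) := h4
      _ = (Real.pi / 2 * ‖x - a‖) ^ 2 := by rw [mul_pow, h2]; ring

/-- a function homogeneous of degree one which is bounded and Lipschitz on the sphere is continuous -/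
private lemma cont_of_sphere (F : E n → ℝ) (M K : ℝ) (hM : 0 ≤ M) (hK : 0 ≤ K)
    (hhom : ∀ c : ℝ, 0 ≤ c → ∀ x, F (c • x) = c * F x) (hb : ∀ x, |F x| ≤ M * ‖x‖)
    (hL : ∀ a x : E n, ‖a‖ = 1 → ‖x‖ = 1 → |F x - F a| ≤ K * ‖x - a‖) : Continuous F := by
  have key : ∀ x y : E n, |F x - F y| ≤ (2 * K + M) * ‖x - y‖ := by
    intro x y
    have hF0 : F 0 = 0 := by
      have := hhom 0 le_rfl 0
      rwa [zero_smul, zero_mul] at this
    by_cases hx : x = 0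
    · rw [hx, hF0, zero_sub, abs_neg, zero_sub, norm_neg]
      have := hb y
      have := norm_nonneg y
      nlinarith
    by_cases hy : y = 0
    · rw [hy, hF0, sub_zero, sub_zero]
      have := hb x
      have := norm_nonneg x
      nlinarith
    have hxn : ‖x‖ ≠ 0 := norm_ne_zero_iff.2 hx
    have hyn : ‖y‖ ≠ 0 := norm_ne_zero_iff.2 hy
    set u : E n := ‖x‖⁻¹ • x with hu
    set v : E n := ‖y‖⁻¹ • y with hv
    have hu1 : ‖u‖ = 1 := by rw [hu, norm_smul, norm_inv, norm_norm]; exact inv_mul_cancel₀ hxn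
    have hv1 : ‖v‖ = 1 := by rw [hv, norm_smul, norm_inv, norm_norm]; exact inv_mul_cancel₀ hyn
    have hxu : x = ‖x‖ • u := by rw [hu, smul_smul, mul_inv_cancel₀ hxn, one_smul]
    have hyv : y = ‖y‖ • v := by rw [hv, smul_smul, mul_inv_cancel₀ hyn, one_smul]
    have hFx : F x = ‖x‖ * F u := by
      conv_lhs => rw [hxu]
      exact hhom _ (norm_nonneg _) _
    have hFy : F y = ‖y‖ * F v := by
      conv_lhs => rw [hyv]
      exact hhom _ (norm_nonneg _) _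
    have h1 : ‖x‖ * ‖u - v‖ ≤ 2 * ‖x - y‖ := by
      have h2 : ‖x‖ • (u - v) = (x - y) + (‖y‖ - ‖x‖) • v := by
        rw [smul_sub, ← hxu, sub_smul, ← hyv]
        abel
      have h3 : ‖‖x‖ • (u - v)‖ = ‖x‖ * ‖u - v‖ := by rw [norm_smul, norm_norm]
      rw [← h3, h2]
      refine (norm_add_le _ _).trans ?_
      rw [norm_smul, hv1, mul_one, Real.norm_eq_abs]
      have h4 : |‖y‖ - ‖x‖| ≤ ‖x - y‖ := by
        rw [abs_sub_comm]
        exact abs_norm_sub_norm_le x y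
      linarith
    have h5 : F x - F y = ‖x‖ * (F u - F v) + (‖x‖ - ‖y‖) * F v := by rw [hFx, hFy]; ring
    rw [h5]
    refine (abs_add_le _ _).trans ?_
    rw [abs_mul, abs_mul, abs_of_nonneg (norm_nonneg x)]
    have h6 : ‖x‖ * |F u - F v| ≤ K * (2 * ‖x - y‖) := by
      calc ‖x‖ * |F u - F v| ≤ ‖x‖ * (K * ‖u - v‖) :=
            mul_le_mul_of_nonneg_left (hL v u hv1 hu1) (norm_nonneg _)
        _ = K * (‖x‖ * ‖u - v‖) := by ring
        _ ≤ K * (2 * ‖x - y‖) := mul_le_mul_of_nonneg_left h1 hK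
    have h7 : |‖x‖ - ‖y‖| * |F v| ≤ ‖x - y‖ * M := by
      have h8 := hb v
      rw [hv1, mul_one] at h8
      exact mul_le_mul (abs_norm_sub_norm_le x y) h8 (abs_nonneg _) (norm_nonneg _)
    linarith
  have hl : LipschitzWith (Real.toNNReal (2 * K + M)) F := by
    refine LipschitzWith.of_dist_le_mul fun x y => ?_
    rw [Real.dist_eq, dist_eq_norm, Real.coe_toNNReal _ (by positivity)]
    exact key x y
  exact hl.continuous

theorem hXD : StA -> StD -> StXA -> StXB -> StXL -> StXD := by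
  intro hA hD hXA hXB hXL n e μ hn he hμ
  obtain ⟨N, C₀, hC₀⟩ := hμ.cont
  obtain ⟨C₁, hC₁, hB₁⟩ := hXB n N
  obtain ⟨C₂, hC₂, hB₂⟩ := (hXA n).2.2.2.1 N
  obtain ⟨C₃, hC₃, hB₃⟩ := hXL n N
  have hcomp : ∀ (θ : E n ≃ₗᵢ[ℝ] E n) (φ : E n → ℝ), S1 φ → S1 (fun z => φ (θ z)) :=
    fun θ φ hφ => ((hD n).2.2.1 θ φ hφ).1
  have hR : ∀ u : E n, ∃ θ : E n ≃ₗᵢ[ℝ] E n, ‖u‖ = 1 → (IsRot θ ∧ θ e = u) := by
    intro u
    by_cases hu : ‖u‖ = 1
    · obtain ⟨θ, h1, h2⟩ := exists_rot hn he hu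
      exact ⟨θ, fun _ => ⟨h1, h2⟩⟩
    · exact ⟨LinearIsometryEquiv.refl ℝ (E n), fun h => absurd h hu⟩
  choose R hR using hR
  let A : (E n → ℝ) → E n → ℝ := fun φ x => ‖x‖ * μ (fun z => φ (R (‖x‖⁻¹ • x) z))
  have hA0 : ∀ φ, A φ 0 = 0 := fun φ => by simp [A]
  have hBnn : ∀ (M : ℕ) (φ : E n → ℝ) (B : ℝ), Bd M φ B → 0 ≤ B := by
    intro M φ B hB
    exact (abs_nonneg _).trans (hB [] (by simp) e he)
  have hhom : ∀ φ : E n → ℝ, S1 φ → ∀ c : ℝ, 0 ≤ c → ∀ x, A φ (c • x) = c * A φ x := by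
    intro φ _ c hc x
    rcases hc.eq_or_lt with h0 | h0
    · rw [← h0, zero_smul, zero_mul, hA0]
    · change ‖c • x‖ * μ (fun z => φ (R (‖c • x‖⁻¹ • (c • x)) z)) =
        c * (‖x‖ * μ (fun z => φ (R (‖x‖⁻¹ • x) z)))
      have h1 : ‖c • x‖ = c * ‖x‖ := by rw [norm_smul, Real.norm_eq_abs, abs_of_pos h0]
      have h2 : (c * ‖x‖)⁻¹ • (c • x) = ‖x‖⁻¹ • x := by
        rw [smul_smul, mul_inv, mul_comm c⁻¹, mul_assoc, inv_mul_cancel₀ h0.ne', mul_one]
      rw [h1, h2]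
      ring
  have hpole : ∀ φ : E n → ℝ, S1 φ → ∀ θ : E n ≃ₗᵢ[ℝ] E n, IsRot θ → A φ (θ e) = μ (fun z => φ (θ z)) := by
    intro φ hφ θ hθ
    have hu : ‖θ e‖ = 1 := by rw [θ.norm_map, he]
    change ‖θ e‖ * μ (fun z => φ (R (‖θ e‖⁻¹ • θ e) z)) = μ (fun z => φ (θ z))
    rw [hu, inv_one, one_smul, one_mul]
    obtain ⟨h1, h2⟩ := hR (θ e) hu
    have h3 : IsRot ((R (θ e)).trans θ.symm) := isRot_trans h1 (isRot_symm hθ)
    have h4 : ((R (θ e)).trans θ.symm) e = e := by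
      rw [LinearIsometryEquiv.trans_apply, h2, LinearIsometryEquiv.symm_apply_apply]
    have h5 := hμ.zonal _ h3 h4 _ (hcomp θ φ hφ)
    rw [← h5]
    congr 1
    funext z
    rw [LinearIsometryEquiv.trans_apply, LinearIsometryEquiv.apply_symm_apply]
  have hadd : ∀ φ ψ : E n → ℝ, S1 φ → S1 ψ → ∀ x, A (fun z => φ z + ψ z) x = A φ x + A ψ x := by
    intro φ ψ hφ hψ x
    change ‖x‖ * μ _ = ‖x‖ * μ _ + ‖x‖ * μ _
    rw [hμ.add _ _ (hcomp _ φ hφ) (hcomp _ ψ hψ)]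
    ring
  have hsmul : ∀ (c : ℝ) (φ : E n → ℝ), S1 φ → ∀ x, A (fun z => c * φ z) x = c * A φ x := by
    intro c φ hφ x
    change ‖x‖ * μ _ = c * (‖x‖ * μ _)
    rw [hμ.smul c _ (hcomp _ φ hφ)]
    ring
  have hrot : ∀ θ : E n ≃ₗᵢ[ℝ] E n, IsRot θ → ∀ φ : E n → ℝ, S1 φ → ∀ x,
      A (fun z => φ (θ z)) x = A φ (θ x) := by
    intro θ hθ φ hφ x
    by_cases hx : x = 0
    · subst hx
      have h1 : A (fun z => φ (θ z)) 0 = 0 := by
        change ‖(0 : E n)‖ * _ = 0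
        rw [norm_zero, zero_mul]
      rw [h1, map_zero, hA0 φ]
    · have hxn : ‖x‖ ≠ 0 := norm_ne_zero_iff.2 hx
      have hu1 : ‖‖x‖⁻¹ • x‖ = 1 := by rw [norm_smul, norm_inv, norm_norm]; exact inv_mul_cancel₀ hxn
      obtain ⟨h1, h2⟩ := hR _ hu1
      have h3 : θ x = ‖x‖ • (((R (‖x‖⁻¹ • x)).trans θ) e) := by
        rw [LinearIsometryEquiv.trans_apply, h2, ← map_smul, smul_smul, mul_inv_cancel₀ hxn, one_smul]
      rw [h3, hhom φ hφ _ (norm_nonneg _), hpole φ hφ _ (isRot_trans h1 hθ)]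
      rfl
  have hbound : ∀ φ : E n → ℝ, S1 φ → ∀ B : ℝ, Bd N φ B → ∀ x, |A φ x| ≤ |C₀| * C₁ * C₂ * B * ‖x‖ := by
    intro φ hφ B hB x
    have hB0 := hBnn N φ B hB
    have h1 := hB₂ (R (‖x‖⁻¹ • x)) φ B hφ hB
    have h2 := hB₁ _ _ (hcomp (R (‖x‖⁻¹ • x)) φ hφ) (mul_nonneg hC₂ hB0) h1
    have h3 := hC₀ _ (hcomp (R (‖x‖⁻¹ • x)) φ hφ) _ h2
    change |‖x‖ * μ (fun z => φ (R (‖x‖⁻¹ • x) z))| ≤ _
    rw [abs_mul, abs_of_nonneg (norm_nonneg x)]
    have h4 : C₀ * (C₁ * (C₂ * B)) ≤ |C₀| * C₁ * C₂ * B := by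
      have h5 : 0 ≤ C₁ * (C₂ * B) := mul_nonneg hC₁ (mul_nonneg hC₂ hB0)
      calc C₀ * (C₁ * (C₂ * B)) ≤ |C₀| * (C₁ * (C₂ * B)) := mul_le_mul_of_nonneg_right (le_abs_self _) h5
        _ = |C₀| * C₁ * C₂ * B := by ring
    calc ‖x‖ * |μ (fun z => φ (R (‖x‖⁻¹ • x) z))| ≤ ‖x‖ * (|C₀| * C₁ * C₂ * B) :=
          mul_le_mul_of_nonneg_left (h3.trans h4) (norm_nonneg _)
      _ = |C₀| * C₁ * C₂ * B * ‖x‖ := by ring
  have hCnn : 0 ≤ |C₀| * C₁ * C₂ := mul_nonneg (mul_nonneg (abs_nonneg _) hC₁) hC₂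
  refine ⟨A, N, |C₀| * C₁ * C₂, hCnn, hhom, hpole, hadd, hsmul, hrot, hbound, ?_⟩
  intro φ hφ
  obtain ⟨B, hB⟩ := exists_Bd hD hXA (N + 1) φ hφ
  have hB0 := hBnn _ φ B hB
  have hBN : Bd N φ B := fun w hw => hB w (by omega)
  set C : ℝ := |C₀| * C₁ * C₂ with hCdef
  refine cont_of_sphere (A φ) (C * B) (C * (C₃ * B) * (Real.pi / 2) + C * B) (mul_nonneg hCnn hB0)
    (by have := Real.pi_pos; positivity) (hhom φ hφ) (hbound φ hφ B hBN) ?_
  intro a x ha hx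
  have hpi := Real.pi_pos
  have hK0 : 0 ≤ C * (C₃ * B) * (Real.pi / 2) := by positivity
  have hCB : 0 ≤ C * B := mul_nonneg hCnn hB0
  by_cases hxa : x = a
  · rw [hxa, sub_self, sub_self, abs_zero, norm_zero, mul_zero]
  by_cases hxa' : x = -a
  · have h1 := hbound φ hφ B hBN x
    have h2 := hbound φ hφ B hBN a
    rw [hx, mul_one] at h1
    rw [ha, mul_one] at h2
    have h3 : ‖x - a‖ = 2 := by
      rw [hxa']
      have : -a - a = (-2 : ℝ) • a := by module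
      rw [this, norm_smul, ha]
      norm_num
    rw [h3]
    have h4 : |A φ x - A φ a| ≤ |A φ x| + |A φ a| := abs_sub _ _
    linarith
  · obtain ⟨b, t, hab, hxt, ht⟩ := polar a x ha hx hxa hxa'
    obtain ⟨ρ, hρ, hρ'⟩ := (hA n a b hab).1 t
    have hρa : ρ a = x := by rw [hρ', (hA n a b hab).2.2.2 t, hxt]
    have hS1 : S1 (fun z => φ (rp a b t z)) := by
      have := hcomp ρ φ hφ
      simpa only [hρ'] using this
    have hS2 : S1 (fun z => (-1) * φ z) := ((hD n).2.1 (-1) φ hφ).1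
    have hψ : S1 (fun z => φ (rp a b t z) + (-1) * φ z) := ((hD n).1 _ _ hS1 hS2).1
    have h1 := hB₃ a b φ t B hab hφ hB
    have h2 := hbound _ hψ _ h1 a
    rw [hadd _ _ hS1 hS2, hsmul _ φ hφ, ha, mul_one] at h2
    have h3 : A (fun z => φ (rp a b t z)) a = A φ x := by
      rw [← hρa, ← hrot ρ hρ φ hφ]
      simp only [hρ']
    rw [h3] at h2
    have h4 : A φ x + -1 * A φ a = A φ x - A φ a := by ring
    rw [h4] at h2
    refine h2.trans ?_
    have h5 : C * (C₃ * |t| * B) ≤ C * (C₃ * B) * (Real.pi / 2) * ‖x - a‖ := by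
      have h6 : 0 ≤ C * (C₃ * B) := by positivity
      calc C * (C₃ * |t| * B) = C * (C₃ * B) * |t| := by ring
        _ ≤ C * (C₃ * B) * (Real.pi / 2 * ‖x - a‖) := mul_le_mul_of_nonneg_left ht h6
        _ = C * (C₃ * B) * (Real.pi / 2) * ‖x - a‖ := by ring
    have h7 : 0 ≤ C * B * ‖x - a‖ := mul_nonneg hCB (norm_nonneg _)
    linarith

end Pool.Agent.Helper27.PM
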